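import Pool.Agent.helper41.G5.Spec

/-! DH5, module CS (helper74): the number of connected sets of a graph of bounded degree. -/

set_option autoImplicit false

namespace DH5

open Finset

/-- the set of the vertices visited by a walk given by a list of choices. -/
def CS_vis {X : Type} {Δ : ℕ} (nb : X → Fin Δ → X) : X → List (Fin Δ) → Set X
  | x, [] => {x}
  | x, c :: l => insert x (CS_vis nb (nb x c) l)

theorem CS_mem {X : Type} {Δ : ℕ} (nb : X → Fin Δ → X) (x : X) (l : List (Fin Δ)) : x ∈ CS_vis nb x l := by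
  cases l with
  | nil => simp [CS_vis]
  | cons c l => simp [CS_vis]

/-- a detour. -/
theorem CS_ins {X : Type} {Δ : ℕ} (G : SimpleGraph X) (nb : X → Fin Δ → X) (hnb : ∀ x y, G.Adj x y → ∃ i, nb x i = y)
    (w v : X) (hwv : G.Adj w v) : ∀ (l : List (Fin Δ)) (x : X), w ∈ CS_vis nb x l →
    ∃ l' : List (Fin Δ), l'.length = l.length + 2 ∧ CS_vis nb x l' = insert v (CS_vis nb x l) := by
  obtain ⟨i, hi⟩ := hnb w v hwv
  obtain ⟨i', hi'⟩ := hnb v w hwv.symm
  intro l
  induction l with
  | nil =>
    intro x hx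
    have hx' : w = x := by simpa [CS_vis] using hx
    subst hx'
    refine ⟨[i, i'], by simp, ?_⟩
    ext u
    simp only [CS_vis, hi, hi', Set.mem_insert_iff, Set.mem_singleton_iff]
    tauto
  | cons c l ih =>
    intro x hx
    by_cases hwx : w = x
    · subst hwx
      refine ⟨i :: i' :: c :: l, by simp, ?_⟩
      ext u
      simp only [CS_vis, hi, hi', Set.mem_insert_iff]
      tauto
    · have h1 : w ∈ CS_vis nb (nb x c) l := by
        have h2 : w = x ∨ w ∈ CS_vis nb (nb x c) l := by simpa [CS_vis] using hx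
        exact h2.resolve_left hwx
      obtain ⟨l', hl', he⟩ := ih (nb x c) h1
      refine ⟨c :: l', by simp [hl'], ?_⟩
      ext u
      simp only [CS_vis, he, Set.mem_insert_iff]
      tauto

/-- a connected graph is covered by a walk. -/
theorem CS_walk {X : Type} {Δ : ℕ} (G : SimpleGraph X) (nb : X → Fin Δ → X) (hnb : ∀ x y, G.Adj x y → ∃ i, nb x i = y) (n : ℕ) :
    ∀ (Y : Type) [Fintype Y] (H : SimpleGraph Y) (φ : Y → X), Fintype.card Y = n + 1 → H.Connected →
    (∀ a b, H.Adj a b → G.Adj (φ a) (φ b)) → ∃ (x : X) (l : List (Fin Δ)), l.length = 2 * n ∧ CS_vis nb x l = Set.range φ := by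
  induction n with
  | zero =>
    intro Y _ H φ hc hH hφ
    obtain ⟨y, hy⟩ := Fintype.card_eq_one_iff.1 hc
    refine ⟨φ y, [], by simp, ?_⟩
    ext u
    simp only [CS_vis, Set.mem_singleton_iff, Set.mem_range]
    constructor
    · rintro rfl
      exact ⟨y, rfl⟩
    · rintro ⟨z, rfl⟩
      rw [hy z]
  | succ n ih =>
    intro Y _ H φ hc hH hφ
    have hnt : Nontrivial Y := Fintype.one_lt_card_iff_nontrivial.1 (by omega)
    obtain ⟨v, hv⟩ := hH.exists_connected_induce_compl_singleton_of_finite_nontrivial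
    obtain ⟨w, hw⟩ := hH.preconnected.exists_adj_of_nontrivial v
    classical
    have hcard : Fintype.card (({v}ᶜ : Set Y)) = n + 1 := by
      have h1 := Fintype.card_compl_set ({v} : Set Y)
      rw [h1]
      simp [hc]
    obtain ⟨x, l, hl, hvis⟩ := ih _ (H.induce {v}ᶜ) (fun y => φ y.1) hcard hv (fun a b hab => hφ _ _ hab)
    have hw2 : φ w ∈ CS_vis nb x l := by
      rw [hvis]
      exact ⟨⟨w, fun h => hw.ne (Set.mem_singleton_iff.1 h).symm⟩, rfl⟩
    obtain ⟨l', hl', he⟩ := CS_ins G nb hnb (φ w) (φ v) (hφ _ _ hw).symm l x hw2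
    refine ⟨x, l', by omega, ?_⟩
    rw [he, hvis]
    ext u
    simp only [Set.mem_insert_iff, Set.mem_range]
    constructor
    · rintro (rfl | ⟨y, rfl⟩)
      · exact ⟨v, rfl⟩
      · exact ⟨y.1, rfl⟩
    · rintro ⟨y, rfl⟩
      by_cases hyv : y = v
      · left
        rw [hyv]
      · right
        exact ⟨⟨y, hyv⟩, rfl⟩

theorem CS : CS_stmt := by
  intro X _ G Δ k hΔ hdeg
  classical
  rcases Nat.eq_zero_or_pos k with hk | hk
  · subst hk
    have : {S : Finset X | #S = 0 ∧ (G.induce (S : Set X)).Connected} = ∅ := by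
      ext S
      simp only [Set.mem_empty_iff_false, iff_false]
      rintro ⟨h1, h2⟩
      rw [Finset.card_eq_zero] at h1
      subst h1
      obtain ⟨y⟩ := h2.nonempty
      exact absurd y.2 (by simp)
    rw [this, Set.ncard_empty]
    exact Nat.zero_le _
  obtain ⟨n, rfl⟩ : ∃ n, k = n + 1 := ⟨k - 1, by omega⟩
  -- the choice of the neighbours
  have hnb0 : ∀ x : X, ∃ g : Fin Δ → X, ∀ y, G.Adj x y → ∃ i, g i = y := by
    intro x
    set s : Finset X := {y | G.Adj x y} with hs
    have hscard : #s ≤ Δ := by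
      have h1 := hdeg x
      have h2 : Set.ncard {y | G.Adj x y} = #s := by
        rw [← Set.ncard_coe_finset]
        congr 1
        ext y
        simp [hs]
      omega
    refine ⟨fun i => s.toList.getD i.1 x, fun y hy => ?_⟩
    have hy2 : y ∈ s.toList := by
      rw [Finset.mem_toList, hs]
      simpa using hy
    obtain ⟨j, hj, hjy⟩ := List.getElem_of_mem hy2
    have hj2 : j < Δ := by
      rw [Finset.length_toList] at hj
      omega
    refine ⟨⟨j, hj2⟩, ?_⟩
    simp only
    rw [List.getD_eq_getElem _ _ hj, hjy]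
  choose nb hnb using hnb0
  set F : X × List.Vector (Fin Δ) (2 * n) → Set X := fun p => CS_vis nb p.1 p.2.1 with hF
  have hsub : (fun S : Finset X => (S : Set X)) '' {S : Finset X | #S = n + 1 ∧ (G.induce (S : Set X)).Connected} ⊆ Set.range F := by
    rintro _ ⟨S, ⟨hS1, hS2⟩, rfl⟩
    obtain ⟨x, l, hl, hvis⟩ := CS_walk G nb hnb n ((S : Set X)) (G.induce (S : Set X)) (fun y => y.1)
      (by simpa using hS1) hS2 (fun a b hab => hab)
    refine ⟨(x, ⟨l, hl⟩), ?_⟩
    simp only [hF]
    rw [hvis]
    ext u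
    simp
  have hinj : Set.InjOn (fun S : Finset X => (S : Set X)) {S : Finset X | #S = n + 1 ∧ (G.induce (S : Set X)).Connected} :=
    fun S _ S' _ h => Finset.coe_injective h
  rw [← hinj.ncard_image]
  refine (Set.ncard_le_ncard hsub (Set.finite_range F)).trans ?_
  have h1 : Set.ncard (Set.range F) ≤ Fintype.card (X × List.Vector (Fin Δ) (2 * n)) := by
    rw [← Set.image_univ]
    refine (Set.ncard_image_le Set.finite_univ).trans ?_
    rw [Set.ncard_univ, Nat.card_eq_fintype_card]
  refine h1.trans ?_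
  rw [Fintype.card_prod, card_vector, Fintype.card_fin]
  exact Nat.mul_le_mul_left _ (Nat.pow_le_pow_right hΔ (by omega))

end DH5
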